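import Mathlib
import Pool.Agent.QPI.Stmts

set_option autoImplicit false

/-! # Squad QPI, row A_PHI -/

namespace Pool.Agent.QPI.H65

open MvPolynomial

variable {κ υ : Type} [Fintype κ] [DecidableEq κ] [Fintype υ] [DecidableEq υ]

/-- The expectation as a linear map. -/
noncomputable def ExL (hL : LinStmt) (κ : Type) [Fintype κ] [DecidableEq κ] :
    MvPolynomial κ ℚ →ₗ[ℚ] ℚ where
  toFun := Ex
  map_add' p q := (hL κ).1 p q
  map_smul' c p := by
    rw [MvPolynomial.smul_eq_C_mul, (hL κ).2.1 c p]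
    rfl

theorem exL_apply (hL : LinStmt) (p : MvPolynomial κ ℚ) : ExL hL κ p = Ex p := rfl

theorem pd_frm (B : Matrix κ κ ℚ) (hB : B.IsSymm) (b : κ) :
    pderiv b (frm B) = ∑ c, C (2 * B b c) * X c := by
  unfold frm
  rw [map_sum]
  have h1 : ∀ a : κ, pderiv b (∑ c, C (B a c) * X a * X c : MvPolynomial κ ℚ) =
      (if a = b then ∑ c, C (B a c) * X c else 0) + C (B a b) * X a := by
    intro a
    rw [map_sum]
    have h2 : ∀ c : κ, pderiv b (C (B a c) * X a * X c : MvPolynomial κ ℚ) =
        (if a = b then C (B a c) * X c else 0) + (if c = b then C (B a c) * X a else 0) := by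
      intro c
      rw [mul_assoc, pderiv_C_mul, pderiv_mul]
      rcases eq_or_ne a b with h | h
      · subst h
        rw [if_pos rfl, pderiv_X_self]
        rcases eq_or_ne c a with h' | h'
        · subst h'
          rw [if_pos rfl, pderiv_X_self]
          ring
        · rw [if_neg h', pderiv_X_of_ne h']
          ring
      · rw [if_neg h, pderiv_X_of_ne h]
        rcases eq_or_ne c b with h' | h'
        · subst h'
          rw [if_pos rfl, pderiv_X_self]
          ring
        · rw [if_neg h', pderiv_X_of_ne h']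
          ring
    rw [Finset.sum_congr rfl fun c _ => h2 c, Finset.sum_add_distrib]
    rw [Finset.sum_ite_eq' Finset.univ b, if_pos (Finset.mem_univ _)]
    rcases eq_or_ne a b with h | h
    · simp only [if_pos h]
    · simp only [if_neg h, Finset.sum_const_zero]
  rw [Finset.sum_congr rfl fun a _ => h1 a, Finset.sum_add_distrib, Finset.sum_ite_eq' Finset.univ b,
    if_pos (Finset.mem_univ _), ← Finset.sum_add_distrib]
  refine Finset.sum_congr rfl fun c _ => ?_
  rw [hB.apply b c, ← add_mul, ← C_add, two_mul]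

theorem qp_split (B : υ → Matrix κ κ ℚ) (γ : υ →₀ ℕ) (v : υ) :
    Qp B γ = frm (B v) ^ γ v * ∏ w ∈ Finset.univ.erase v, frm (B w) ^ γ w :=
  (Finset.mul_prod_erase Finset.univ _ (Finset.mem_univ v)).symm

theorem qp_sub (B : υ → Matrix κ κ ℚ) (γ : υ →₀ ℕ) (v : υ) :
    Qp B (γ - Finsupp.single v 1) =
      frm (B v) ^ (γ v - 1) * ∏ w ∈ Finset.univ.erase v, frm (B w) ^ γ w := by
  rw [qp_split B _ v]
  rw [Finsupp.tsub_apply, Finsupp.single_eq_same]
  refine congrArg _ (Finset.prod_congr rfl fun w hw => ?_)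
  rw [Finsupp.tsub_apply, Finsupp.single_eq_of_ne (Finset.ne_of_mem_erase hw), Nat.sub_zero]

theorem fac_sub (γ : υ →₀ ℕ) (v : υ) (h : γ v ≠ 0) :
    (∏ w, ((γ w).factorial : ℚ)) =
      (γ v : ℚ) * ∏ w, (((γ - Finsupp.single v 1 : υ →₀ ℕ) w).factorial : ℚ) := by
  rw [← Finset.mul_prod_erase Finset.univ _ (Finset.mem_univ v),
    ← Finset.mul_prod_erase Finset.univ (fun w => (((γ - Finsupp.single v 1 : υ →₀ ℕ) w).factorial : ℚ))
      (Finset.mem_univ v), ← mul_assoc]
  rw [Finsupp.tsub_apply, Finsupp.single_eq_same]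
  have h1 : ((γ v).factorial : ℚ) = (γ v : ℚ) * ((γ v - 1).factorial : ℚ) := by
    rw [← Nat.cast_mul, Nat.mul_factorial_pred h]
  rw [h1]
  refine congrArg _ (Finset.prod_congr rfl fun w hw => ?_)
  rw [Finsupp.tsub_apply, Finsupp.single_eq_of_ne (Finset.ne_of_mem_erase hw), Nat.sub_zero]

theorem pd_prod (F : υ → MvPolynomial κ ℚ) (n : υ → ℕ) (b : κ) (s : Finset υ) :
    pderiv b (∏ w ∈ s, F w ^ n w) = ∑ v ∈ s, (n v : MvPolynomial κ ℚ) * pderiv b (F v) *
      (F v ^ (n v - 1) * ∏ w ∈ s.erase v, F w ^ n w) := by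
  induction s using Finset.induction_on with
  | empty => rw [Finset.prod_empty, Finset.sum_empty, pderiv_one]
  | insert a s ha ih =>
    rw [Finset.prod_insert ha, pderiv_mul, ih, Finset.sum_insert ha, Finset.erase_insert ha,
      pderiv_pow, Finset.mul_sum]
    congr 1
    · ring
    · refine Finset.sum_congr rfl fun v hv => ?_
      have hva : v ≠ a := fun h => ha (h ▸ hv)
      rw [Finset.erase_insert_of_ne (Ne.symm hva), Finset.prod_insert
        (fun h => ha (Finset.mem_of_mem_erase h))]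
      ring

theorem pd_qp (B : υ → Matrix κ κ ℚ) (γ : υ →₀ ℕ) (b : κ) :
    pderiv b (Qp B γ) = ∑ v, C (γ v : ℚ) * (pderiv b (frm (B v)) *
      Qp B (γ - Finsupp.single v 1)) := by
  unfold Qp
  rw [pd_prod]
  refine Finset.sum_congr rfl fun v _ => ?_
  have h := qp_sub B γ v
  unfold Qp at h
  rw [h, map_natCast]
  ring

theorem a_phi (hL : LinStmt) (hS : SteinStmt) : PhiStmt := by
  intro κ υ _ _ _ _ B hB N γ
  -- the single expectation
  have h1 : ∀ a b : κ, Ex (X a * X b * Qp B γ) = (if a = b then Ex (Qp B γ) else 0) +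
      ∑ v, (γ v : ℚ) * ∑ c, 2 * B v b c * Ex (X a * X c * Qp B (γ - Finsupp.single v 1)) := by
    intro a b
    have e1 : X a * X b * Qp B γ = X b * (X a * Qp B γ) := by ring
    rw [e1, hS κ b, pderiv_mul, pd_qp]
    have e2 : (X a * ∑ v, C (γ v : ℚ) * (pderiv b (frm (B v)) * Qp B (γ - Finsupp.single v 1)) :
        MvPolynomial κ ℚ) = ∑ v, (γ v : ℚ) • ∑ c, (2 * B v b c) •
          (X a * X c * Qp B (γ - Finsupp.single v 1)) := by
      rw [Finset.mul_sum]
      refine Finset.sum_congr rfl fun v _ => ?_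
      rw [pd_frm (B v) (hB v) b, MvPolynomial.smul_eq_C_mul, Finset.sum_mul, Finset.mul_sum,
        Finset.mul_sum, Finset.mul_sum]
      refine Finset.sum_congr rfl fun c _ => ?_
      rw [MvPolynomial.smul_eq_C_mul]
      ring
    rw [e2, (hL κ).1]
    congr 1
    · rcases eq_or_ne a b with h | h
      · subst h
        rw [if_pos rfl, pderiv_X_self, one_mul]
      · rw [if_neg h, pderiv_X_of_ne h, zero_mul]
        exact (ExL hL κ).map_zero
    · rw [← exL_apply hL, map_sum]
      refine Finset.sum_congr rfl fun v _ => ?_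
      rw [map_smul, map_sum, smul_eq_mul]
      refine congrArg _ (Finset.sum_congr rfl fun c _ => ?_)
      rw [map_smul, smul_eq_mul, exL_apply]
  -- the sum
  have h2 : (∑ a, ∑ b, N a b * Ex (X a * X b * Qp B γ)) = Matrix.trace N * Ex (Qp B γ) +
      2 * ∑ v, (γ v : ℚ) * ∑ a, ∑ c, (N * B v) a c *
        Ex (X a * X c * Qp B (γ - Finsupp.single v 1)) := by
    have e1 : ∀ a, (∑ b, N a b * Ex (X a * X b * Qp B γ)) = N a a * Ex (Qp B γ) +
        ∑ b, N a b * ∑ v, (γ v : ℚ) * ∑ c, 2 * B v b c *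
          Ex (X a * X c * Qp B (γ - Finsupp.single v 1)) := by
      intro a
      rw [Finset.sum_congr rfl fun b _ => by rw [h1 a b, mul_add], Finset.sum_add_distrib]
      congr 1
      simp only [mul_ite, mul_zero]
      rw [Finset.sum_ite_eq Finset.univ a, if_pos (Finset.mem_univ _)]
    rw [Finset.sum_congr rfl fun a _ => e1 a, Finset.sum_add_distrib, Matrix.trace, Finset.sum_mul]
    congr 1
    rw [Finset.mul_sum]
    have e2 : ∀ a, (∑ b, N a b * ∑ v, (γ v : ℚ) * ∑ c, 2 * B v b c *
          Ex (X a * X c * Qp B (γ - Finsupp.single v 1))) =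
        ∑ v, 2 * ((γ v : ℚ) * ∑ c, (N * B v) a c *
          Ex (X a * X c * Qp B (γ - Finsupp.single v 1))) := by
      intro a
      simp only [Finset.mul_sum]
      rw [Finset.sum_comm]
      refine Finset.sum_congr rfl fun v _ => ?_
      rw [Finset.sum_comm]
      refine Finset.sum_congr rfl fun c _ => ?_
      rw [Matrix.mul_apply, Finset.sum_mul, Finset.mul_sum, Finset.mul_sum]
      refine Finset.sum_congr rfl fun b _ => ?_
      ring
    rw [Finset.sum_congr rfl fun a _ => e2 a, Finset.sum_comm]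
    refine Finset.sum_congr rfl fun v _ => ?_
    rw [← Finset.mul_sum, ← Finset.mul_sum]
  -- divide
  unfold ph gg
  rw [h2, add_div, mul_div_assoc, mul_div_assoc, Finset.sum_div]
  congr 2
  refine Finset.sum_congr rfl fun v _ => ?_
  rcases eq_or_ne (γ v) 0 with h | h
  · rw [if_pos h, h, Nat.cast_zero, zero_mul, zero_div]
  · rw [if_neg h, fac_sub γ v h]
    have h3 : (γ v : ℚ) ≠ 0 := Nat.cast_ne_zero.2 h
    rw [mul_div_mul_left _ _ h3]

end Pool.Agent.QPI.H65
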