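import Mathlib
import Pool.Agent.QPI.Stmts

set_option autoImplicit false

/-! # Squad QPI, row B_CRI -/

namespace Pool.Agent.QPI.H65

open PowerSeries

/-- `z d/dz` as a linear map. -/
noncomputable def thL (K : Type) [Field K] : PowerSeries K →ₗ[K] PowerSeries K where
  toFun := th
  map_add' g h := by
    ext a
    simp only [th, coeff_mk, map_add, mul_add]
  map_smul' c g := by
    ext a
    simp only [th, coeff_mk, map_smul, smul_eq_mul, RingHom.id_apply]
    ring

theorem th_iter {K : Type} [Field K] (a : ℕ) (g : PowerSeries K) :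
    th^[a] g = (thL K ^ a) g := by
  rw [Module.End.pow_apply]
  rfl

theorem th_sum {K : Type} [Field K] {s : ℕ} (a : ℕ) (γ : Fin s → K) (v : Fin s → PowerSeries K) :
    th^[a] (∑ b, γ b • v b) = ∑ b, γ b • th^[a] (v b) := by
  rw [th_iter, map_sum]
  refine Finset.sum_congr rfl fun b _ => ?_
  rw [map_smul, th_iter]

/-- The determinant of derivatives against the reduced one. -/
theorem det_fac {K τ : Type} [Field K] (T U : τ → PowerSeries K) (P : τ → ℕ → PowerSeries K)
    (h : ∀ i a, th^[a] (T i) = U i * P i a) (s : ℕ) (t : Fin s → τ) :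
    Matrix.det (Matrix.of fun a b : Fin s => th^[(a : ℕ)] (T (t b))) =
      (∏ b, U (t b)) * Matrix.det (Matrix.of fun a b : Fin s => P (t b) a) := by
  rw [← Matrix.det_mul_row]
  refine congrArg Matrix.det ?_
  refine Matrix.ext fun a b => ?_
  simp only [Matrix.of_apply]
  rw [h]

theorem one_prod {K τ : Type} [Field K] (U : τ → PowerSeries K)
    (hU : ∀ i, constantCoeff (U i) = 1) (s : ℕ) (t : Fin s → τ) :
    constantCoeff (∏ b, U (t b)) = 1 := by
  rw [map_prod]
  exact Finset.prod_eq_one fun b _ => hU _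

theorem ne_of_one {K : Type} [Field K] (A : PowerSeries K) (h : constantCoeff A = 1) : A ≠ 0 := by
  intro h0
  rw [h0, map_zero] at h
  exact zero_ne_one h

/-- Comparison of the first coefficients. -/
theorem coeff_cmp {K : Type} [Field K] (A B x y : PowerSeries K) (γ : K) (w : ℕ)
    (hA : constantCoeff A = 1) (hB : constantCoeff B = 1) (h : A * x = C γ * (B * y))
    (hy : ∀ μ < w, coeff μ y = 0) : coeff w x = γ * coeff w y := by
  obtain ⟨y', rfl⟩ := X_pow_dvd_iff.2 hy
  have hAu : IsUnit A := by
    rw [isUnit_iff_constantCoeff, hA]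
    exact isUnit_one
  have h1 : (X : PowerSeries K) ^ w ∣ x := by
    refine (hAu.dvd_mul_left).1 ?_
    rw [h]
    exact ⟨C γ * (B * y'), by ring⟩
  obtain ⟨x', rfl⟩ := h1
  have h2 : A * x' = C γ * (B * y') := by
    refine mul_left_cancel₀ (pow_ne_zero w (X_ne_zero : (X : PowerSeries K) ≠ 0)) ?_
    calc X ^ w * (A * x') = A * (X ^ w * x') := by ring
      _ = C γ * (B * (X ^ w * y')) := h
      _ = X ^ w * (C γ * (B * y')) := by ring
  have h3 := congrArg constantCoeff h2
  rw [map_mul, map_mul, map_mul, hA, hB, one_mul, one_mul, constantCoeff_C] at h3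
  rw [coeff_X_pow_mul', coeff_X_pow_mul', if_pos le_rfl, if_pos le_rfl, Nat.sub_self,
    coeff_zero_eq_constantCoeff_apply, coeff_zero_eq_constantCoeff_apply, h3]

/-- A relation kills the determinant. -/
theorem ind_of_det {K τ : Type} [Field K] (T : τ → PowerSeries K) (s : ℕ) (t : Fin s → τ)
    (h : Matrix.det (Matrix.of fun a b : Fin s => th^[(a : ℕ)] (T (t b))) ≠ 0) :
    LinearIndependent K (fun b => T (t b)) := by
  rw [Fintype.linearIndependent_iff]
  intro g hg
  by_contra hne
  push Not at hne
  obtain ⟨i, hi⟩ := hne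
  refine h (Matrix.exists_mulVec_eq_zero_iff.1 ⟨fun b => C (g b), ?_, ?_⟩)
  · intro h0
    have h1 := congrFun h0 i
    simp only [Pi.zero_apply] at h1
    have h2 := congrArg constantCoeff h1
    rw [constantCoeff_C, map_zero] at h2
    exact hi h2
  · ext a : 1
    have h1 := th_sum (a : ℕ) g (fun b => T (t b))
    rw [hg, th_iter, map_zero] at h1
    rw [Matrix.mulVec, dotProduct, Pi.zero_apply, h1]
    refine Finset.sum_congr rfl fun b _ => ?_
    rw [Matrix.of_apply, smul_eq_C_mul, mul_comm]

theorem b_cri (hW : WroStmt) (hBa : BasStmt) (hC : ColStmt) : CriStmt := by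
  intro K τ _ _ _ M T U P hU hP hM
  -- the reduced determinant vanishes iff the other one does
  have key0 : ∀ (s : ℕ) (t : Fin s → τ),
      Matrix.det (Matrix.of fun a b : Fin s => P (t b) a) = 0 ↔
      Matrix.det (Matrix.of fun a b : Fin s => th^[(a : ℕ)] (T (t b))) = 0 := by
    intro s t
    rw [det_fac T U P hP s t, mul_eq_zero]
    exact ⟨fun h => Or.inr h, fun h => h.resolve_left (ne_of_one _ (one_prod U hU s t))⟩
  -- the first coefficient
  have key1 : ∀ (s : ℕ) (t : Fin s → τ) (w : ℕ) (i : τ) (γ : Fin s → K),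
      T i = ∑ b, γ b • T (t b) →
      (∀ μ < w, coeff μ (Matrix.det (Matrix.of fun a b : Fin s => P (t b) a)) = 0) →
      ∀ c : Fin s, coeff w (Matrix.det (Matrix.of fun a b : Fin s =>
        P (Function.update t c i b) a)) =
        γ c * coeff w (Matrix.det (Matrix.of fun a b : Fin s => P (t b) a)) := by
    intro s t w i γ hγ hw c
    have h1 := (hC K τ s T t i γ hγ).1 c
    rw [det_fac T U P hP s t, det_fac T U P hP s (Function.update t c i)] at h1
    exact coeff_cmp _ _ _ _ _ _ (one_prod U hU s _) (one_prod U hU s t) h1 hw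
  constructor
  · intro hsum
    obtain ⟨s, t, hs, hli, hsp⟩ := hBa K (PowerSeries K) τ T
    have hD : Matrix.det (Matrix.of fun a b : Fin s => P (t b) a) ≠ 0 := fun h =>
      hW K s _ hli ((key0 s t).1 h)
    have hex : ∃ μ, μ ≤ M ∧
        coeff μ (Matrix.det (Matrix.of fun a b : Fin s => P (t b) a)) ≠ 0 := by
      by_contra h
      push Not at h
      exact hD (hM s t (Nat.le_succ_of_le hs) h)
    classical
    have hγ : ∀ i, ∃ γ : Fin s → K, T i = ∑ b, γ b • T (t b) := by
      intro i
      obtain ⟨γ, hγ⟩ := (Submodule.mem_span_range_iff_exists_fun K).1 (hsp i)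
      exact ⟨γ, hγ.symm⟩
    choose γ hγ using hγ
    have hw := Nat.find_spec hex
    have hmin : ∀ μ < Nat.find hex,
        coeff μ (Matrix.det (Matrix.of fun a b : Fin s => P (t b) a)) = 0 := by
      intro μ hμ
      have h1 := Nat.find_min hex hμ
      push Not at h1
      exact h1 (le_trans hμ.le hw.1)
    refine ⟨s, t, Nat.find hex, hs, hw.1, hw.2, hmin, ?_, ?_⟩
    · intro i μ _
      have h1 : Matrix.det (Matrix.of fun a b : Fin (s + 1) =>
          P (Fin.snoc (α := fun _ => τ) t i b) a) = 0 :=
        (key0 (s + 1) (Fin.snoc (α := fun _ => τ) t i)).2 (hC K τ s T t i (γ i) (hγ i)).2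
      rw [h1, map_zero]
    · intro c
      rw [Finset.sum_congr rfl fun i _ => key1 s t _ i (γ i) (hγ i) hmin c, ← Finset.sum_mul]
      have h1 : ∑ i, γ i c = 0 := by
        have h2 : ∑ b, (∑ i, γ i b) • T (t b) = 0 := by
          rw [← hsum, Finset.sum_congr rfl fun i _ => hγ i, Finset.sum_comm]
          exact Finset.sum_congr rfl fun b _ => Finset.sum_smul
        exact Fintype.linearIndependent_iff.1 hli _ h2 c
      rw [h1, zero_mul]
  · rintro ⟨s, t, w, hs, hwM, hw, hmin, hsn, hz⟩
    have hD : Matrix.det (Matrix.of fun a b : Fin s => P (t b) a) ≠ 0 := by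
      intro h
      rw [h, map_zero] at hw
      exact hw rfl
    have hli : LinearIndependent K (fun b => T (t b)) :=
      ind_of_det T s t fun h => hD ((key0 s t).2 h)
    have hγ : ∀ i, ∃ γ : Fin s → K, T i = ∑ b, γ b • T (t b) := by
      intro i
      have h1 : Matrix.det (Matrix.of fun a b : Fin (s + 1) =>
          P (Fin.snoc (α := fun _ => τ) t i b) a) = 0 :=
        hM (s + 1) (Fin.snoc (α := fun _ => τ) t i) (Nat.succ_le_succ hs) (hsn i)
      have h2 := (key0 (s + 1) (Fin.snoc (α := fun _ => τ) t i)).1 h1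
      have h3 : ¬ LinearIndependent K
          (Fin.snoc (α := fun _ => PowerSeries K) (fun b => T (t b)) (T i)) := by
        intro h4
        refine hW K (s + 1) _ h4 ?_
        rw [← h2]
        refine congrArg Matrix.det ?_
        refine Matrix.ext fun a b => ?_
        rw [Matrix.of_apply, Matrix.of_apply]
        exact congrArg (th^[(a : ℕ)]) (congrFun (Fin.comp_snoc T t i) b).symm
      rw [linearIndependent_finSnoc] at h3
      have h5 : T i ∈ Submodule.span K (Set.range fun b => T (t b)) := by
        by_contra h6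
        exact h3 ⟨hli, h6⟩
      obtain ⟨γ, hγ⟩ := (Submodule.mem_span_range_iff_exists_fun K).1 h5
      exact ⟨γ, hγ.symm⟩
    choose γ hγ using hγ
    have h1 : ∀ c, ∑ i, γ i c = 0 := by
      intro c
      have h2 := hz c
      rw [Finset.sum_congr rfl fun i _ => key1 s t w i (γ i) (hγ i) hmin c,
        ← Finset.sum_mul] at h2
      exact (mul_eq_zero.1 h2).resolve_right hw
    rw [Finset.sum_congr rfl fun i _ => hγ i, Finset.sum_comm]
    refine Finset.sum_eq_zero fun b _ => ?_
    rw [← Finset.sum_smul, h1 b, zero_smul]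

end Pool.Agent.QPI.H65
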